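import Pool.Agent.Mob.Stmts
import Pool.Agent.Helper48_Loc.Decay
import Pool.Agent.Helper48_Loc.Center

/-!
# DCY and CEN: decay of solutions from the two-box property in full cubes
-/

set_option autoImplicit false
set_option linter.unusedSectionVars false

open MeasureTheory ProbabilityTheory Function Filter

open scoped ENNReal BigOperators Topology

noncomputable section

namespace Pool.Agent.Mob.H48

open Pool.Agent.Anderson Pool.Agent.Loc

variable {d : ℕ}

/-- a full cube inside the large cube -/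
theorem goodBox_of_fGood {V : Site d → ℝ} {L n : ℕ} {x : Site d} {E μ : ℝ} (hn : sd 0 x + L ≤ n)
    (h : FGood V L x E μ) : GoodBox V n L x E μ := by
  have hsub : box x L ∩ box (0 : Site d) n = box x L := by
    apply Finset.inter_eq_left.2
    intro y hy
    rw [mem_box] at *
    have := sd_triangle 0 x y
    omega
  intro u hu huL
  rw [hsub]
  exact h u huL

/-- In the interior of a region where `ψ` solves the equation, a solution is small at the centre
of a good cube. -/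
theorem fGood_bound {V : Site d → ℝ} {L : ℕ} {x : Site d} {E μ : ℝ} (hd : 0 < d)
    (hg : FGood V L x E μ) {ψ : Site d → ℂ}
    (hψ : ∀ y ∈ box x L, lap ψ y + (V y : ℂ) * ψ y = (E : ℂ) * ψ y)
    {M : ℝ} (hM : ∀ y ∈ box x (L + 1), ‖ψ y‖ ≤ M) :
    ‖ψ x‖ ≤ 2 * d * (2 * L + 1) ^ d * Real.exp (-μ * L) * M := by
  have hx : x ∈ box (0 : Site d) (sd 0 x + L + 1) := mem_box.2 (by omega)
  refine goodBox_bound (n := sd 0 x + L + 1) (goodBox_of_fGood (by omega) hg) hx ?_
    (fun y hy => hψ y (Finset.mem_inter.1 hy).1) ?_ hM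
  · apply exists_sd_eq_of_lt (y := fun _ => ((sd 0 x + L + 1 : ℕ) : ℤ)) hx
    · rw [mem_box, sd_zero_const hd]
    · have := sd_triangle 0 x (fun _ => ((sd 0 x + L + 1 : ℕ) : ℤ))
      rw [sd_zero_const hd] at this
      omega
  · intro y hy hyn
    exfalso
    apply hyn
    rw [mem_box] at *
    have := sd_triangle 0 x y
    omega

/-- DCY -/
theorem dcy : DcyStmt := by
  intro d V I μ L₀ hd hμ h E hE ψ hpoly hψ
  by_cases hz : ∀ x, ψ x = 0
  · exact ⟨0, fun x => by rw [hz x]; simp⟩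
  push Not at hz
  obtain ⟨x₀, hx₀⟩ := hz
  obtain ⟨C₀, k, hC₀⟩ := hpoly
  have hC₀' : 0 ≤ C₀ := by
    have := (norm_nonneg _).trans (hC₀ 0)
    rw [sd_self] at this
    simpa using this
  set a := sd 0 x₀ with ha
  obtain ⟨B, hB0, hB⟩ := exists_pow_exp_bound (d + k) (c := μ / 4) (by positivity)
  -- the box at `x₀` is bad at all large scales
  have hlim : Filter.Tendsto (fun L : ℕ => 2 * d * (2 * (L : ℝ) + 1) ^ d * Real.exp (-μ * L) *
      (C₀ * (2 + a + L) ^ k)) Filter.atTop (𝓝 0) := by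
    obtain ⟨B', hB0', hB'⟩ := exists_pow_exp_bound (d + k) (c := μ / 2) (by positivity)
    have hexp : Filter.Tendsto (fun L : ℕ => Real.exp (-(μ / 2) * (L : ℝ))) Filter.atTop (𝓝 0) := by
      have := (Real.summable_pow_mul_exp_neg_nat_mul 0 (r := μ / 2)
        (by positivity)).tendsto_atTop_zero
      simpa using this
    have hup : Filter.Tendsto (fun L : ℕ => (2 * d * 2 ^ d * (C₀ * (2 + a) ^ k) * B') *
        Real.exp (-(μ / 2) * (L : ℝ))) Filter.atTop (𝓝 0) := by
      simpa using hexp.const_mul (2 * d * 2 ^ d * (C₀ * (2 + a) ^ k) * B')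
    refine squeeze_zero (fun L => by positivity) (fun L => ?_) hup
    have e1 : Real.exp (-μ * L) = Real.exp (-(μ / 2) * L) * Real.exp (-(μ / 2) * L) := by
      rw [← Real.exp_add]; congr 1; ring
    have e2 : (2 * (L : ℝ) + 1) ^ d ≤ 2 ^ d * ((L : ℝ) + 1) ^ d := by
      rw [← mul_pow]
      have : (0 : ℝ) ≤ L := by positivity
      exact pow_le_pow_left₀ (by positivity) (by linarith only []) d
    have e3 : (2 + (a : ℝ) + L) ^ k ≤ (2 + a) ^ k * ((L : ℝ) + 1) ^ k := by
      rw [← mul_pow]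
      have h1 : (0 : ℝ) ≤ L := by positivity
      have h2 : (0 : ℝ) ≤ a := by positivity
      exact pow_le_pow_left₀ (by positivity) (by nlinarith only []) k
    calc 2 * d * (2 * (L : ℝ) + 1) ^ d * Real.exp (-μ * L) * (C₀ * (2 + a + L) ^ k)
        ≤ 2 * d * (2 ^ d * ((L : ℝ) + 1) ^ d) * Real.exp (-μ * L) *
            (C₀ * ((2 + a) ^ k * ((L : ℝ) + 1) ^ k)) := by gcongr
      _ = (2 * d * 2 ^ d * (C₀ * (2 + a) ^ k)) *
            (((L : ℝ) + 1) ^ (d + k) * Real.exp (-(μ / 2) * L)) * Real.exp (-(μ / 2) * L) := by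
          rw [e1, pow_add]; ring
      _ ≤ (2 * d * 2 ^ d * (C₀ * (2 + a) ^ k)) * B' * Real.exp (-(μ / 2) * L) := by
          gcongr
          exact hB' L
      _ = _ := by ring
  obtain ⟨L₁, hL₁⟩ := Filter.eventually_atTop.1
    (hlim.eventually (gt_mem_nhds (norm_pos_iff.2 hx₀)))
  have hbad : ∀ L : ℕ, L₁ ≤ L → ¬ FGood V L x₀ E μ := by
    intro L hL hg
    have hM : ∀ y ∈ box x₀ (L + 1), ‖ψ y‖ ≤ C₀ * (2 + a + L) ^ k := by
      intro y hy
      refine (hC₀ y).trans ?_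
      have h1 := sd_triangle 0 x₀ y
      rw [mem_box] at hy
      have h2 : (sd 0 y : ℝ) ≤ a + (L + 1) := by exact_mod_cast (by omega : sd 0 y ≤ a + (L + 1))
      apply mul_le_mul_of_nonneg_left _ hC₀'
      exact pow_le_pow_left₀ (by positivity) (by linarith only [h2]) k
    have := fGood_bound hd hg (fun y _ => hψ y) hM
    exact absurd (hL₁ L hL) (not_lt.2 this)
  -- the threshold radius
  set R₁ : ℕ := 2 * (L₀ + L₁ + a + 8) + a + 2 with hR₁
  have hfar : ∀ x, R₁ ≤ sd 0 x →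
      ‖ψ x‖ ≤ (2 * d * (C₀ * 2 ^ k) * Real.exp (μ * (a + 2) / 2) * B) *
        Real.exp (-(μ / 4) * sd 0 x) := by
    intro x hx
    set R := sd 0 x with hR
    set L := (R - a - 1) / 2 with hL
    have l1 : 2 * L ≤ R - a - 1 := by omega
    have l2 : R - a - 1 ≤ 2 * L + 1 := by omega
    have l3 : L₀ + L₁ + a + 8 ≤ L := by omega
    have l4 : R ≤ L ^ 2 := by
      have : R ≤ 2 * L + a + 2 := by omega
      have : 2 * L + a + 2 ≤ L ^ 2 := by nlinarith only [l3]
      omega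
    have hx1 : x ∈ box (0 : Site d) (L ^ 2) := mem_box.2 l4
    have hx2 : x₀ ∈ box (0 : Site d) (L ^ 2) := mem_box.2 (by omega)
    have htri := sd_triangle 0 x₀ x
    rcases h L (by omega) x₀ hx2 x hx1 (by omega) E hE with hg | hg
    · exact absurd hg (hbad L (by omega))
    · have hM : ∀ y ∈ box x (L + 1), ‖ψ y‖ ≤ C₀ * (2 * (R + 1)) ^ k := by
        intro y hy
        refine (hC₀ y).trans ?_
        have h1 := sd_triangle 0 x y
        rw [mem_box] at hy
        have h2 : (sd 0 y : ℝ) ≤ 2 * R + 1 := by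
          exact_mod_cast (by omega : sd 0 y ≤ 2 * R + 1)
        apply mul_le_mul_of_nonneg_left _ hC₀'
        exact pow_le_pow_left₀ (by positivity) (by linarith only [h2]) k
      have hmain := fGood_bound hd hg (fun y _ => hψ y) hM
      refine hmain.trans ?_
      have r1 : (2 * (L : ℝ) + 1) ≤ R + 1 := by
        have : 2 * L ≤ R := by omega
        have : (2 * (L : ℝ)) ≤ R := by exact_mod_cast this
        linarith only [this]
      have r2 : Real.exp (-μ * L) ≤ Real.exp (μ * (a + 2) / 2) * Real.exp (-(μ / 2) * R) := by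
        rw [← Real.exp_add]
        apply Real.exp_le_exp.2
        have : R ≤ 2 * L + (a + 2) := by omega
        have : (R : ℝ) ≤ 2 * L + (a + 2) := by exact_mod_cast this
        nlinarith only [this, hμ]
      have r3 : Real.exp (-(μ / 2) * R) = Real.exp (-(μ / 4) * R) * Real.exp (-(μ / 4) * R) := by
        rw [← Real.exp_add]; congr 1; ring
      calc 2 * d * (2 * (L : ℝ) + 1) ^ d * Real.exp (-μ * L) * (C₀ * (2 * (R + 1)) ^ k)
          ≤ 2 * d * ((R : ℝ) + 1) ^ d *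
              (Real.exp (μ * (a + 2) / 2) * Real.exp (-(μ / 2) * R)) *
              (C₀ * (2 * (R + 1)) ^ k) := by gcongr
        _ = (2 * d * (C₀ * 2 ^ k) * Real.exp (μ * (a + 2) / 2)) *
              (((R : ℝ) + 1) ^ (d + k) * Real.exp (-(μ / 4) * R)) *
              Real.exp (-(μ / 4) * R) := by rw [r3, mul_pow, pow_add]; ring
        _ ≤ (2 * d * (C₀ * 2 ^ k) * Real.exp (μ * (a + 2) / 2)) * B *
              Real.exp (-(μ / 4) * R) := by
            gcongr
            exact hB R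
        _ = _ := by ring
  refine ⟨2 * d * (C₀ * 2 ^ k) * Real.exp (μ * (a + 2) / 2) * B +
    C₀ * (1 + R₁) ^ k * Real.exp (μ / 4 * R₁), fun x => ?_⟩
  rcases Nat.lt_or_ge (sd 0 x) R₁ with hx | hx
  · have h1 := hC₀ x
    have h2 : (sd 0 x : ℝ) ≤ R₁ := by exact_mod_cast hx.le
    have h3 : 1 ≤ Real.exp (μ / 4 * R₁) * Real.exp (-(μ / 4) * sd 0 x) := by
      rw [← Real.exp_add]
      apply Real.one_le_exp
      nlinarith only [h2, hμ]
    calc ‖ψ x‖ ≤ C₀ * (1 + (sd 0 x : ℝ)) ^ k := h1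
      _ ≤ C₀ * (1 + R₁) ^ k * 1 := by
          rw [mul_one]
          gcongr
      _ ≤ C₀ * (1 + R₁) ^ k * (Real.exp (μ / 4 * R₁) * Real.exp (-(μ / 4) * sd 0 x)) := by
          gcongr
      _ ≤ _ := by
          rw [← mul_assoc]
          apply mul_le_mul_of_nonneg_right _ (Real.exp_pos _).le
          have : 0 ≤ 2 * d * (C₀ * 2 ^ k) * Real.exp (μ * (a + 2) / 2) * B := by positivity
          linarith only [this]
  · refine (hfar x hx).trans ?_
    apply mul_le_mul_of_nonneg_right _ (Real.exp_pos _).le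
    have : 0 ≤ C₀ * (1 + R₁) ^ k * Real.exp (μ / 4 * R₁) := by positivity
    linarith only [this]

/-- CEN -/
theorem cen : CenStmt := by
  intro d V I μ L₀ hd hμ h
  -- bounds for the polynomial factor
  have h1 := tendsto_poly_exp d (show 0 < μ / 8 by positivity) 1 (2 * d)
  obtain ⟨C₀, hC₀⟩ := h1.bddAbove_range
  have hC₀' : ∀ L : ℕ, 2 * (d:ℝ) * (2 * L + 1) ^ d * Real.exp (-(μ / 8) * L) ≤ C₀ := fun L =>
    hC₀ ⟨L, rfl⟩
  have h2 : ∀ᶠ L : ℕ in atTop, 2 * (d:ℝ) * (2 * L + 1) ^ d * Real.exp (-μ * L) < 1 :=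
    (tendsto_poly_exp d hμ 1 (2 * d)).eventually (gt_mem_nhds one_pos)
  obtain ⟨L₂, hL₂⟩ := eventually_atTop.1 h2
  refine ⟨max 1 (C₀ * Real.exp (6 * μ / 8)), 7 * (L₀ + L₂) + 700, le_max_left _ _, ?_⟩
  intro n E ψ c hE hψ hc hcn x hxn hr hr2
  obtain ⟨r, hrdef⟩ : ∃ r, r = sd c x := ⟨_, rfl⟩
  rw [← hrdef] at hr hr2 ⊢
  obtain ⟨L, hL⟩ : ∃ L, L = r / 7 := ⟨_, rfl⟩
  have hLr : 7 * L ≤ r := by omega
  have hLr' : r ≤ 7 * L + 6 := by omega
  have hL100 : 100 ≤ L := by omega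
  have htri : r ≤ sd 0 c + sd 0 x := by
    rw [hrdef, sd_comm 0 c]
    exact sd_triangle c 0 x
  have hLn : 4 * (L + 1) ≤ n := by omega
  have hc2 : sd 0 c ≤ L ^ 2 := by
    have e1 : r ^ 2 ≤ (8 * L) ^ 2 := Nat.pow_le_pow_left (by omega) 2
    nlinarith only [hLr', hr, hr2]
  have hx2 : sd 0 x ≤ L ^ 2 := by
    have e1 : r ^ 2 ≤ (7 * L + 6) ^ 2 := Nat.pow_le_pow_left (by omega) 2
    have e2 : sd 0 x ≤ sd 0 c + r := by
      rw [hrdef]
      exact sd_triangle 0 c x
    have e3 : 100 * (sd 0 x) ≤ (7 * L + 6) ^ 2 + 100 * (7 * L + 6) := by omega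
    have e4 : (7 * L + 6) ^ 2 + 100 * (7 * L + 6) ≤ 100 * L ^ 2 := by nlinarith only [hLr', hr]
    omega
  have hin : ∀ y : Site d, 4 * sd 0 y ≤ 3 * n → ∀ v ∈ box y L, v ∈ box (0 : Site d) n := by
    intro y hy v hv
    rw [mem_box] at *
    have := sd_triangle 0 y v
    omega
  have hcpos := hψ.center_pos hc
  have hmain : ‖ψ x‖ ≤ 2 * d * (2 * L + 1) ^ d * Real.exp (-μ * L) * ‖ψ c‖ := by
    rcases h L (by omega) c (mem_box.2 hc2) x (mem_box.2 hx2) (by rw [← hrdef]; omega) E hE with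
      hg | hg
    · exfalso
      have h3 := fGood_bound hd hg (ψ := ψ) (fun y hy => hψ.eq y (hin c hcn y hy))
        (M := ‖ψ c‖) (fun y _ => hc.2 y)
      have h4 := hL₂ L (by omega)
      nlinarith only [h4, h3, hcpos]
    · exact fGood_bound hd hg (ψ := ψ) (fun y hy => hψ.eq y (hin x hxn y hy))
        (M := ‖ψ c‖) (fun y _ => hc.2 y)
  refine hmain.trans (mul_le_mul_of_nonneg_right ?_ hcpos.le)
  have h4 := hC₀' L
  have h5 : Real.exp (-μ * L) = Real.exp (-(μ / 8) * L) * Real.exp (-(7 * μ / 8) * L) := by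
    rw [← Real.exp_add]; congr 1; ring
  have h6 : Real.exp (-(7 * μ / 8) * L) ≤ Real.exp (6 * μ / 8) * Real.exp (-(μ / 8) * r) := by
    rw [← Real.exp_add]
    apply Real.exp_le_exp.2
    have : (r : ℝ) ≤ 7 * L + 6 := by exact_mod_cast hLr'
    nlinarith only [this, hμ]
  calc 2 * (d:ℝ) * (2 * L + 1) ^ d * Real.exp (-μ * L)
      = (2 * (d:ℝ) * (2 * L + 1) ^ d * Real.exp (-(μ / 8) * L)) * Real.exp (-(7 * μ / 8) * L) := by
        rw [h5]; ring
    _ ≤ C₀ * (Real.exp (6 * μ / 8) * Real.exp (-(μ / 8) * r)) := by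
        apply mul_le_mul h4 h6 (Real.exp_pos _).le
        exact le_trans (by positivity) h4
    _ = (C₀ * Real.exp (6 * μ / 8)) * Real.exp (-(μ / 8) * r) := by ring
    _ ≤ _ := mul_le_mul_of_nonneg_right (le_max_right _ _) (Real.exp_pos _).le

end Pool.Agent.Mob.H48
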